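import Mathlib

set_option autoImplicit false

namespace Pool.Agent.Results.MP_50e72c_co.Cex

open Finset

variable {V : Type} [Fintype V] [DecidableEq V]

/-- One application of the propagation rule: the burned set B together with all vertices v lying
in an edge e with at least two vertices such that e minus v is burned. -/
def spread (E : Finset (Finset V)) (B : Finset V) : Finset V :=
  B ∪ univ.filter (fun v => ∃ e ∈ E, 2 ≤ e.card ∧ v ∈ e ∧ e.erase v ⊆ B)

/-- Starting from the burned set F, the listed sources are each unburned when chosen and after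
the last round everything is burned. -/
def Run (E : Finset (Finset V)) : Finset V → List V → Prop
  | F, [] => F = univ
  | F, u :: l => u ∉ F ∧ Run E (insert u (spread E F)) l

/-- An optimal burning sequence. -/
def Optimal (E : Finset (Finset V)) (l : List V) : Prop :=
  Run E ∅ l ∧ ∀ l' : List V, Run E ∅ l' → l.length ≤ l'.length

/-- A lazy burning set. -/
def Lazy (E : Finset (Finset V)) (S : Finset V) : Prop := ∃ k : ℕ, (spread E)^[k] S = univ

/-- A minimum lazy burning set. -/
def MinLazy (E : Finset (Finset V)) (S : Finset V) : Prop :=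
  Lazy E S ∧ ∀ T : Finset V, Lazy E T → S.card ≤ T.card

/-- The edges of the example. -/
def ed : Finset (Finset (Fin 6)) :=
  {{1, 2, 4}, {1, 3, 4}, {3, 5}, {1, 4, 5}, {0, 2, 4, 5}, {3, 4, 5}}

lemma short : ∀ l : List (Fin 6), l.length ≤ 3 → Run ed ∅ l → l = [4, 1, 0] ∨ l = [1, 4, 0]
  | [], _ => by simp only [Run]; decide +kernel
  | [a], h => by clear h; simp only [Run]; revert a; decide +kernel
  | [a, b], h => by clear h; simp only [Run]; revert a b; decide +kernel
  | [a, b, c], h => by clear h; simp only [Run]; revert a b c; decide +kernel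
  | _ :: _ :: _ :: _ :: _, h => by simp at h; omega

lemma run0 : Run ed ∅ [4, 1, 0] := by simp only [Run]; decide +kernel

lemma fix : ∀ S : Finset (Fin 6), S ⊆ {0, 1, 4} → S.card ≤ 1 → spread ed S = S ∧ S ≠ univ := by
  decide +kernel

/-- A hypergraph without isolated vertices in which no optimal burning sequence contains a
minimum lazy burning set. -/
theorem result : ∃ E : Finset (Finset (Fin 6)),
    (∀ v, ∃ e ∈ E, 2 ≤ e.card ∧ v ∈ e) ∧ (∃ l, Optimal E l) ∧
      ∀ l, Optimal E l → ¬ ∃ S, S ⊆ l.toFinset ∧ MinLazy E S := by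
  refine ⟨ed, by decide +kernel, ⟨[4, 1, 0], run0, fun l' h => ?_⟩, ?_⟩
  · by_contra hl
    rcases short l' (by simp at hl; omega) h with rfl | rfl <;> simp at hl
  · rintro l ⟨h1, h2⟩ ⟨S, hS, ⟨k, hk⟩, hmin⟩
    have hc : S.card ≤ 1 := hmin {3} ⟨5, by decide +kernel⟩
    have hsub : S ⊆ {0, 1, 4} := by
      rcases short l (h2 _ run0) h1 with rfl | rfl <;> exact hS.trans (by decide)
    obtain ⟨f1, f2⟩ := fix S hsub hc
    exact f2 ((Function.iterate_fixed f1 k).symm.trans hk)

end Pool.Agent.Results.MP_50e72c_co.Cex
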